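import Pool.Agent.H83.V.FV
import Pool.Agent.H14.LF.LBL

/-!
Row VLB of the board lvv_modules (`MP_c59857_nt`, Theorem V): the labels (after row LBL of
lfu_modules, `Pool/Agent/H14/LF/LBL.lean`).
-/

set_option autoImplicit false

open Finset Filter

namespace Pool.Agent.H77.V

open Pool.Agent.H83.V
open Pool.Agent.H28.MCL (ldB Aw)

/-- the mean of the errors depends only on the labels in the window -/
theorem aN_congr (z : Bool) {m : ℕ} (I : Finset (Fin m)) (τ τ' : ℕ → ℕ → Bool) (K n : ℕ)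
    (h : ∀ k, k < K → τ (n + k) = τ' (n + k)) : aN z I τ K n = aN z I τ' K n := by
  unfold aN eN
  congr 1
  refine Finset.sum_congr rfl fun k hk => ?_
  rw [h k (Finset.mem_range.1 hk)]

/-- the last points of a window -/
theorem sum_tail (x y K : ℕ) (hx : 0 < x) :
    ∑ n ∈ (Icc x y).filter (fun n => y < n + K), (1 : ℝ) / n ≤ K := by
  have h1 : (Icc x y).filter (fun n => y < n + K) ⊆ (range K).image (fun k => y - k) := by
    intro n hn
    rw [Finset.mem_filter, Finset.mem_Icc] at hn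
    rw [Finset.mem_image]
    exact ⟨y - n, Finset.mem_range.2 (by omega), by omega⟩
  have h2 : ((Icc x y).filter (fun n => y < n + K)).card ≤ K :=
    (Finset.card_le_card h1).trans (Finset.card_image_le.trans (Finset.card_range K).le)
  calc ∑ n ∈ (Icc x y).filter (fun n => y < n + K), (1 : ℝ) / n
      ≤ ∑ n ∈ (Icc x y).filter (fun n => y < n + K), (1 : ℝ) :=
        Finset.sum_le_sum fun n hn => by
          rw [Finset.mem_filter, Finset.mem_Icc] at hn
          have h3 : (1 : ℝ) ≤ n := by exact_mod_cast (by omega : 1 ≤ n)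
          rw [div_le_one (by linarith)]
          exact h3
    _ = (((Icc x y).filter (fun n => y < n + K)).card : ℝ) := by simp
    _ ≤ K := by exact_mod_cast h2

open Classical in
theorem pf_VLB (hW : T_VWN) (hB : T_VBL) (hL : Pool.Agent.H28.MCL.T_LDB) : T_VLB := by
  intro z m I ρ hρ hV
  obtain ⟨H, x, y, hH, hxy, hlen, hbig⟩ := hW z m I ρ hρ hV
  obtain ⟨η, hη⟩ : ∃ η : ℝ, η = ρ ^ 4 / 10 ^ 15 := ⟨_, rfl⟩
  rw [← hη] at hbig ⊢
  have hη0 : 0 ≤ η := by
    rw [hη]
    positivity
  choose τ₀ hτ1 hτ2 using fun j => hB z m I η (H j) (x j) (y j) hη0 (by have := hH j; omega)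
    (hxy j).1 (hxy j).2.1
  have hmono : StrictMono x := strictMono_nat_of_lt_succ fun j =>
    (hxy j).2.1.trans_lt (hxy j).2.2
  have hdis : ∀ i j n : ℕ, x i ≤ n → n ≤ y i → x j ≤ n → n ≤ y j → i = j := by
    have key : ∀ i j n : ℕ, i < j → n ≤ y i → x j ≤ n → False := by
      intro i j n hij h1 h2
      have h3 := (hxy i).2.2
      have h4 := hmono.monotone (show i + 1 ≤ j from hij)
      omega
    intro i j n h1 h2 h3 h4
    rcases lt_trichotomy i j with h | h | h
    · exact (key i j n h h2 h3).elim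
    · exact h
    · exact (key j i n h h4 h1).elim
  obtain ⟨τ, hτ⟩ : ∃ τ : ℕ → ℕ → Bool, ∀ j n, x j ≤ n → n ≤ y j → τ n = τ₀ j n := by
    refine ⟨fun n => if h : ∃ j, x j ≤ n ∧ n ≤ y j then τ₀ h.choose n else fun _ => false, ?_⟩
    intro j n h1 h2
    have h : ∃ j, x j ≤ n ∧ n ≤ y j := ⟨j, h1, h2⟩
    simp only [dif_pos h]
    rw [hdis _ _ n h.choose_spec.1 h.choose_spec.2 h1 h2]
  obtain ⟨L, hLdef⟩ : ∃ L : ℕ → ℝ, L = fun j => Real.log ((y j : ℝ) / x j) := ⟨_, rfl⟩
  have hLj : ∀ j, Real.log ((y j : ℝ) / x j) = L j := fun j => by rw [hLdef]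
  simp only [hLj] at hτ1 hτ2 hlen hbig
  have hHj : ∀ j : ℕ, (j : ℝ) + 1 ≤ H j := fun j => by exact_mod_cast hH j
  have hLH : ∀ j : ℕ, (j : ℝ) * ((j : ℝ) + 1) ≤ L j := fun j =>
    (mul_le_mul_of_nonneg_left (hHj j) (Nat.cast_nonneg j)).trans (hlen j)
  have hL0 : ∀ j, 0 ≤ L j := fun j => le_trans (by positivity) (hLH j)
  have hUat : ((hyperfilter ℕ : Ultrafilter ℕ) : Filter ℕ) ≤ atTop := by
    rw [← Nat.cofinite_eq_atTop]
    exact hyperfilter_le_cofinite
  have hAw : Aw (hyperfilter ℕ) x y := by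
    refine ⟨fun j => (hxy j).1, ?_⟩
    refine Tendsto.mono_left ?_ hUat
    simp only [hLj]
    refine tendsto_atTop_mono (f := fun j : ℕ => (j : ℝ)) (fun j => ?_)
      tendsto_natCast_atTop_atTop
    refine le_trans ?_ (hLH j)
    have : (0 : ℝ) ≤ j := Nat.cast_nonneg j
    nlinarith
  obtain ⟨_, _, _, hup, hlo⟩ := hL (hyperfilter ℕ) x y hAw
  have hun : ∀ s t : Finset ℕ, ∑ n ∈ s ∪ t, (1 : ℝ) / n ≤
      ∑ n ∈ s, (1 : ℝ) / n + ∑ n ∈ t, (1 : ℝ) / n := by
    intro s t
    have e := Finset.sum_union_inter (s₁ := s) (s₂ := t) (f := fun n : ℕ => (1 : ℝ) / n)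
    have e2 : 0 ≤ ∑ n ∈ s ∩ t, (1 : ℝ) / n := Finset.sum_nonneg fun n _ => by positivity
    linarith
  refine ⟨hyperfilter ℕ, x, y, τ, hAw, ?_, ?_⟩
  · obtain ⟨A, hA⟩ : ∃ A : Set ℕ, A = {n | τ n ≠ τ (n + 1)} := ⟨_, rfl⟩
    rw [← hA]
    refine le_antisymm ?_ ?_
    · refine le_of_forall_pos_le_add fun c hc => ?_
      rw [zero_add]
      refine hup _ c (hUat ?_)
      refine eventually_atTop.2 ⟨⌈3 / c⌉₊ + 1, fun j hj => ?_⟩
      rw [hLj]
      have hj1 : 3 / c ≤ j := by
        refine (Nat.le_ceil _).trans ?_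
        exact_mod_cast (by omega : ⌈3 / c⌉₊ ≤ j)
      have hj0 : (1 : ℝ) ≤ j := by exact_mod_cast (by omega : 1 ≤ j)
      have h1 : ∑ n ∈ (Icc (x j) (y j)).filter (fun n => n ∈ A),
          (1 : ℝ) / n ≤ (1 + L j / H j) + 1 := by
        have h2 : (Icc (x j) (y j)).filter (fun n => n ∈ A) ⊆
            (Icc (x j) (y j)).filter (fun n => τ₀ j n ≠ τ₀ j (n + 1)) ∪ {y j} := by
          intro n hn
          rw [Finset.mem_filter, Finset.mem_Icc, hA] at hn
          obtain ⟨⟨hn1, hn2⟩, hn3⟩ := hn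
          rw [Finset.mem_union, Finset.mem_filter, Finset.mem_Icc, Finset.mem_singleton]
          by_cases h : n = y j
          · exact Or.inr h
          · refine Or.inl ⟨⟨hn1, hn2⟩, ?_⟩
            rw [← hτ j n hn1 hn2, ← hτ j (n + 1) (by omega) (by omega)]
            exact hn3
        refine (Finset.sum_le_sum_of_subset_of_nonneg h2 fun n _ _ => by positivity).trans ?_
        refine (hun _ _).trans ?_
        rw [Finset.sum_singleton]
        refine add_le_add (hτ1 j) ?_
        have h3 : (1 : ℝ) ≤ y j := by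
          have := (hxy j).1
          have := (hxy j).2.1
          exact_mod_cast (by omega : 1 ≤ y j)
        rw [div_le_one (by linarith)]
        exact h3
      refine h1.trans ?_
      have h4 : L j / H j ≤ L j / j := div_le_div_of_nonneg_left (hL0 j) (by linarith)
        (by have := hHj j; linarith)
      have h5 : 2 ≤ 2 * (L j / j) := by
        have : 1 ≤ L j / j := by
          rw [le_div_iff₀ (by linarith), one_mul]
          have := hLH j
          nlinarith
        linarith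
      have h6 : 3 * (L j / j) ≤ c * L j := by
        have h7 : 3 ≤ c * j := by
          rw [div_le_iff₀ hc] at hj1
          linarith
        have h8 : 3 * (L j / j) = (3 * L j) / j := by ring
        rw [h8, div_le_iff₀ (by linarith)]
        have := hL0 j
        nlinarith
      linarith
    · refine hlo _ 0 (Eventually.of_forall fun j => ?_)
      rw [zero_mul]
      exact Finset.sum_nonneg fun n _ => by positivity
  · intro K hK
    have hK' : (0 : ℝ) < K := by exact_mod_cast hK
    refine hlo _ _ (hUat ?_)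
    refine eventually_atTop.2 ⟨⌈5 * (3 * K + 2) / ρ⌉₊ + 1, fun j hj => ?_⟩
    rw [hLj]
    have hj1 : 5 * (3 * K + 2) / ρ ≤ j := by
      refine (Nat.le_ceil _).trans ?_
      exact_mod_cast (by omega : ⌈5 * (3 * (K : ℝ) + 2) / ρ⌉₊ ≤ j)
    have hj0 : (1 : ℝ) ≤ j := by exact_mod_cast (by omega : 1 ≤ j)
    have hlow := hτ2 j K hK
    have hb := hbig j
    have hsplit : ∑ n ∈ (Icc (x j) (y j)).filter (fun n => aN z I (τ₀ j) K n ≤ 2 * η),
        (1 : ℝ) / n ≤
        ∑ n ∈ (Icc (x j) (y j)).filter (fun n => n ∈ {n | aN z I τ K n ≤ 2 * η}),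
          (1 : ℝ) / n + K := by
      have h2 : (Icc (x j) (y j)).filter (fun n => aN z I (τ₀ j) K n ≤ 2 * η) ⊆
          (Icc (x j) (y j)).filter (fun n => n ∈ {n | aN z I τ K n ≤ 2 * η}) ∪
            (Icc (x j) (y j)).filter (fun n => y j < n + K) := by
        intro n hn
        rw [Finset.mem_filter, Finset.mem_Icc] at hn
        obtain ⟨⟨hn1, hn2⟩, hn3⟩ := hn
        rw [Finset.mem_union, Finset.mem_filter, Finset.mem_filter, Finset.mem_Icc]
        by_cases h : y j < n + K
        · exact Or.inr ⟨⟨hn1, hn2⟩, h⟩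
        · refine Or.inl ⟨⟨hn1, hn2⟩, ?_⟩
          change aN z I τ K n ≤ 2 * η
          rw [aN_congr z I τ (τ₀ j) K n fun k hk => hτ j (n + k) (by omega) (by omega)]
          exact hn3
      refine (Finset.sum_le_sum_of_subset_of_nonneg h2 fun n _ _ => by positivity).trans ?_
      exact (hun _ _).trans (add_le_add (le_refl _) (sum_tail _ _ K (hxy j).1))
    -- the error terms
    have hLj0 := hL0 j
    obtain ⟨w, hw⟩ : ∃ w, w = L j / j := ⟨_, rfl⟩
    have hjp : (0 : ℝ) < j := by linarith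
    have hw1 : 1 ≤ w := by
      rw [hw, le_div_iff₀ hjp, one_mul]
      have := hLH j
      nlinarith
    have hHw : (H j : ℝ) ≤ w := by
      rw [hw, le_div_iff₀ hjp]
      have := hlen j
      linarith
    have hLw : L j / H j ≤ w := by
      rw [hw]
      exact div_le_div_of_nonneg_left hLj0 hjp (by have := hHj j; linarith)
    have hwL : (3 * K + 2) * w ≤ ρ / 5 * L j := by
      have h7 : 5 * (3 * K + 2) ≤ ρ * j := by
        rw [div_le_iff₀ hρ] at hj1
        linarith
      have h8 : (3 * K + 2) * w = ((3 * K + 2) * L j) / j := by rw [hw]; ring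
      rw [h8, div_le_iff₀ hjp]
      nlinarith
    have e1 : (K : ℝ) * (1 + L j / H j) ≤ 2 * K * w := by nlinarith
    have e2 : (K : ℝ) ≤ K * w := by nlinarith
    have e3 : 9 / 20 * ρ * L j ≤
        (∑ n ∈ (Icc (x j) (y j)).filter (fun n => Gn z m I η (H j) n), (1 : ℝ) / n) / 2 := by
      linarith
    nlinarith

end Pool.Agent.H77.V
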